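import Mathlib
import Pool.Agent.N752.HY.Hz
import Pool.Agent.N752.HY.Ext4

/-!
# Vojta's height inequality for ALL points above almost all points of degree `r`, on all abelian
# covers of projective space

Let `k` be a number field. We consider the closed points `P` of all abelian covers `π : X → ℙ^m`
defined over `k` and prove
`h_{K_X}(P) ≤ d_k(P) + ε h_A(P) + O(1)`
for ALL `P`, of any degree, such that `x = π(P)` is a point of degree `r` over `k` which is not in
an exceptional set `E₀` of points of `ℙ^m`. The set `E₀` depends only on `k`, `m` and `r`: it is the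
same for ALL covers `X`, and it has density zero among the points `x` of degree `r`. The case `r = 1`
(all points of `X` above almost all `x` in `ℙ^m(k)`) is done for all number fields `k` and all
`m ≥ 1` (`m ≥ 2` for `k = ℚ`), the case `r ≥ 2` for `m ≥ r [k : ℚ] + 1`.

**The covers.** Let `D_j : F_j = 0` (`1 ≤ j ≤ q`), `F_j` a form of degree `κ_j` over `k`, such that
the product of the `F_j` is squarefree. Let `X` be a normal variety over `k` with a finite map
`π : X → ℙ^m` such that the function field `k(X)` is generated over `k(ℙ^m)` by functions `f_i`,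
`1 ≤ i ≤ s`, with
`f_i ^ {E_i} = c_i ∏_j F_j ^ {a_ij} / ℓ ^ {E_i b_i}`,
`ℓ` a linear form, `c_i` a nonzero constant in `k`, `∑_j a_ij κ_j = E_i b_i`. By Kummer theory these
are all abelian covers of `ℙ^m` of exponent `e` with branch divisors over `k` if `k` contains the
`e`-th roots of unity (any linear form may be added to the `F_j`), and for every `k` they include all
cyclic covers `y ^ e = c F(x)`, `e | deg F`, the Fermat complete intersections and the covers
`y_j ^ {e_j} = F_j(x)`. The ramification index of `X` over `D_j` is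
`e_j = lcm_i (E_i / gcd (E_i, a_ij))`, so that `K_X = π^* (K_{ℙ^m} + ∑ (1 - 1 / e_j) D_j)` and
`h_{K_X}(P) = (∑_j κ_j (1 - 1 / e_j) - m - 1) h(x) + O(1)`.

If `P` is a point of `X` above `x` (`ℓ(x) ≠ 0`) then the field `L = k(P)` contains `k(x)` and the
`y_i = f_i(P) ℓ(x) ^ {b_i}`, and `y_i ^ {E_i} = c_i ∏_j F_j(x) ^ {a_ij}`. Let `S` be the set of
the primes which divide the `c_i`. The theorem says: let `w_j = κ_j` if `κ_j ≤ 2` or if `D_j` is
(over `ℂ`) a union of `κ_j` hyperplanes any `s ≥ 1` of which have linear forms spanning a space of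
dimension greater than `s / 3`; `w_j = 2 (m + 1)` if `D_j` is a union of `κ_j ≥ 3 (m + 1)`
hyperplanes in general position; and `w_j = 1` otherwise. Then for all `θ < ∑ w_j`
`(θ - ∑_j κ_j / e_j) h(x) ≤ d(L) - d(k(x)) + ∑_{p ∈ S} log p`
for all `x` of degree `r` with `x ∉ E₀` and `h(x) > T`, all `X` with branch divisors in the `D_j`
and all `P` above `x`, with `T` depending only on the `F_j` and `θ`. As `d(k(x)) ≥ d(k)`, this is
Vojta's inequality for `P` if `∑ (κ_j - w_j) ≤ m + 1`: in particular if each `D_j` is a hyperplane, a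
quadric or an orbit of at most `3 m + 2` conjugate hyperplanes in general position, with no bound for
the number of the `D_j` and for the ramification; one orbit of `3 (m + 1)` hyperplanes is allowed too.
If `D` has normal crossings then ALL covers of `ℙ^m` which are étale outside of `D` are abelian over
the algebraic closure of `k` (Deligne, Fulton). For example all cyclic covers of degree `e` of
`ℙ^m` branched along a norm form `N(x_0 + θ x_1 + … + θ^m x_m)` of degree `κ ≤ 3 m + 2`, which are of
general type for `κ (1 - 1 / e) > m + 1`; all covers branched along arrangements of hyperplanes such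
that the orbits have this property.

**Smooth models.** We may add to the left hand side `Λ` times the heights of `x` relative to ideals
`(F'_l, G'_l)` of codimension two, `Λ` as large as we like. If `X'` is a smooth projective variety
birational to `X` such that `X' → ℙ^m` is a morphism, the heights of the divisors which are contracted
in `ℙ^m` are bounded by multiples of such heights, so that the inequality holds on all such `X'`, with
the same set `E₀`. The branch divisors may have arbitrary singularities.

Proof. (1) Over one field `K = k(x)`: the `F_j` are decomposed over `K`. Irreducible factors which are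
products of linear forms are norm forms from extensions of `K`; by restriction of scalars their
values have norms which are values of norm forms over `ℚ` in `[K : ℚ] (m + 1)` variables, irreducible
over `ℚ`, and the geometry of numbers (helper445) shows that these are nearly squarefree for most
arguments if the degree is less than three times the rank, and have a radical of exponent at least
twice the rank otherwise. Together with the result for the other
factors (weights one and `κ ≤ 2`) and a bound for the common primes this gives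
`N^{(1)}(D, x) ≥ θ h(x)` plus the common primes for all but few `x` in `ℙ^m(K)`. (2) The fields of large
discriminant contribute little, by a bound for the number of points which is uniform in `K`; the
exceptional sets of the countably many divisors are combined into one. (3) At a prime `w` of `L` above
which exactly one `F_j(x)` is not a unit (in the normalised sense), the intersection number of `x` and
`D_j` is divisible by `e_j`; the discriminant of `L` is bounded below by the primes of `K` which
ramify or have intersection number at least `e_j`, with no constants.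
-/

set_option autoImplicit false

namespace Pool.Agent.Results.MP_9b9442_nt.AbelianCovers

open NumberField IsDedekindDomain Module MvPolynomial
open scoped LinearAlgebra.Projectivization
open Pool.Agent.Results.MP_44a246_nt.BoundedDegreeHyperplanes (height toC fieldOf alpha)
open Pool.Agent.N752.SU (spanDim Full DensityZero)
open Pool.Agent.N752.HY
open Pool.Agent.R366.NF (idealHeight)

/-- The ramification index over `F_j = 0` of the cover `y_i ^ E_i = c_i ∏ F_j ^ a_ij`: the least
common multiple of the `E_i / gcd (E_i, a_ij)`. -/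
def ram {q s : ℕ} (E : Fin s → ℕ) (a : Fin s → Fin q → ℕ) (j : Fin q) : ℕ :=
  Finset.univ.lcm fun i => E i / Nat.gcd (E i) (a i j)

lemma ram_pos {q s : ℕ} {E : Fin s → ℕ} (a : Fin s → Fin q → ℕ) (hE : ∀ i, 1 ≤ E i)
    (j : Fin q) : 1 ≤ ram E a j := by
  unfold ram
  rw [Nat.one_le_iff_ne_zero, Ne, Finset.lcm_eq_zero_iff]
  rintro ⟨i, -, hi⟩
  have h1 : 0 < E i := hE i
  have h2 : 0 < E i / Nat.gcd (E i) (a i j) :=
    Nat.div_pos (Nat.le_of_dvd h1 (Nat.gcd_dvd_left _ _)) (Nat.gcd_pos_of_pos_left _ h1)
  omega

/-- **Vojta's inequality for all points of all abelian covers of `ℙ^m` above almost all points of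
degree `r`.** Let `η > 0`. There is `c₀ ≥ 1` with the following property. Let `k ⊆ ℂ` be a number
field, `m ≥ 1`, `r ≥ 1`, `n = r [k : ℚ]` and `α = alpha n c₀ η`; then `2 α < m` if `n ≥ 2` and
`m ≥ n + 1`. Suppose that `r = 1` and `n (m + 1) ≥ 3`, or that `n ≥ 2`, `2 α < m` and `r ≤ m + 1`.
There is ONE set `E₀` of points of `ℙ^m` such that

(1) `E₀` has density zero among the points whose field of definition has degree `r` over `k` and whose
coordinates span a space of dimension `r` over `k`; and if `r ≤ 2` or
`r (r - 1) (2 α + 1) + r ≤ m + 1` then `E₀` and the points whose coordinates do not span a space of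
dimension `r` have density zero among ALL points of degree `r` over `k`;

(2) for ALL finite families of forms `F_j` over `k` in `m + 1` variables, of degrees `κ_j`, with
squarefree product, ALL finite families of pairs of forms `F'_l, G'_l` over `k`, `F'_l` irreducible
over `ℂ` and not a divisor of `G'_l`, ALL natural numbers `Λ` and ALL `θ < ∑ w_j`, `w_j` the weight
of `F_j`, there is `T` such that for ALL points `x ∉ E₀` of degree `r` over `k` whose coordinates span a
space of dimension `r`, with `h(x) > T`: no `F_j(x)` is zero, and for ALL number fields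
`L ⊇ K = k(x)`, ALL finite sets `S` of primes, ALL `s`, `E_i ≥ 1`, `a_ij ≥ 0` such that `E_i` divides
`∑_j a_ij κ_j`, ALL `c_i` in `L` which are units outside `S` and ALL `y_i` in `L` with
`y_i ^ E_i = c_i ∏_j F_j(x) ^ a_ij` (`1 ≤ i ≤ s`), that is, for ALL points over `L` above `x` of the
corresponding abelian cover with ramification indices `e_j = lcm_i (E_i / gcd (E_i, a_ij))`,
`(θ - ∑_j κ_j / e_j) h(x) + Λ ∑_l h_{(F'_l, G'_l)}(x) ≤ d(L) - d(K) + ∑_{p ∈ S} log p`. -/
theorem result : ∀ η : ℝ, 0 < η → ∃ c₀ : ℝ, 1 ≤ c₀ ∧
    ∀ (k : IntermediateField ℚ ℂ) [NumberField k] (m r n : ℕ), 1 ≤ m → 1 ≤ r →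
      n = r * finrank ℚ k →
      (2 ≤ n → n + 1 ≤ m → 2 * alpha n c₀ η < m) ∧
      ((r = 1 ∧ 3 ≤ n * (m + 1)) ∨ (2 ≤ n ∧ 2 * alpha n c₀ η < m ∧ r ≤ m + 1) →
        ∃ E₀ : Set (ℙ ℂ (Fin (m + 1) → ℂ)), DensityZero (Full k m r) E₀ ∧
          ((r ≤ 2 ∨ (r : ℝ) * (r - 1) * (2 * alpha n c₀ η + 1) + r ≤ m + 1) →
            DensityZero (All k m r) (E₀ ∪ {P | spanDim k P ≠ r})) ∧
          ∀ (q t : ℕ) (F : Fin q → MvPolynomial (Fin (m + 1)) (𝓞 k)) (κ : Fin q → ℕ)
            (F' G' : Fin t → MvPolynomial (Fin (m + 1)) (𝓞 k)) (κ' ε' : Fin t → ℕ),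
            (∀ j, (F j).IsHomogeneous (κ j)) → Squarefree (∏ j, cx (F j)) →
            (∀ l, (F' l).IsHomogeneous (κ' l)) → (∀ l, (G' l).IsHomogeneous (ε' l)) →
            (∀ l, Irreducible (cx (F' l))) → (∀ l, ¬ cx (F' l) ∣ cx (G' l)) →
            ∀ (Λ : ℕ) (θ : ℝ), θ < ∑ j, (wgt (cx (F j)) (κ j) : ℝ) → ∃ T : ℝ,
            ∀ (K : IntermediateField ℚ ℂ) (_ : NumberField K) (h : k ≤ K)
              (Q : ℙ K (Fin (m + 1) → K)), fieldOf k (toC Q) = K →
              finrank ℚ K = r * finrank ℚ k → spanDim k (toC Q) = r → toC Q ∉ E₀ →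
              T < height Q →
              (∀ j, aeval Q.rep (upK h (F j)) ≠ 0) ∧
              ∀ (L : Type) (_ : Field L) (_ : NumberField L) (_ : Algebra K L) (S : Finset ℕ)
                (s : ℕ) (E : Fin s → ℕ) (a : Fin s → Fin q → ℕ) (c y : Fin s → L),
                (∀ p ∈ S, p.Prime) → (∀ i, 1 ≤ E i) → (∀ i, E i ∣ ∑ j, a i j * κ j) →
                (∀ w : HeightOneSpectrum (𝓞 L), Outside S w → ∀ i, FinitePlace.mk w (c i) = 1) →
                (∀ i, y i ^ E i =
                  c i * ∏ j, algebraMap K L (aeval Q.rep (upK h (F j))) ^ a i j) →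
                (θ - ∑ j, (κ j : ℝ) / ram E a j) * height Q +
                    Λ * ∑ l, idealHeight (upK h (F' l)) (upK h (G' l)) (κ' l) (ε' l) Q.rep /
                      finrank ℚ K ≤
                  ldisc L - ldisc K + ∑ p ∈ S, Real.log p) := by
  intro η hη
  obtain ⟨c₀, hc₀, hmain⟩ := main4 η hη
  refine ⟨c₀, hc₀, ?_⟩
  intro k _ m r n hm hr hn
  obtain ⟨hα, hmain⟩ := hmain k m r n hm hr hn
  refine ⟨hα, fun hcase => ?_⟩
  obtain ⟨E₀, hE₀, hdens, hall⟩ := hmain hcase
  refine ⟨E₀, hE₀, hdens, ?_⟩
  intro q t F κ F' G' κ' ε' h1 h2 h3 h4 h5 h6 Λ θ hθ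
  have hθw : θ < wsum F κ := hθ
  obtain ⟨T₀, hT₀⟩ := hall q t F κ F' G' κ' ε' ⟨h1, h2, h3, h4, h5, h6⟩ Λ
    ((θ + wsum F κ) / 2) (by linarith)
  choose A hA0 hA using fun j => Ext4.prox_ge k (F j) (κ j) (h1 j)
  set δ : ℝ := (wsum F κ - θ) / 2 with hδ
  have hδ0 : 0 < δ := by rw [hδ]; linarith
  refine ⟨max T₀ ((∑ j, A j) / δ), fun K hK h Q hf hd hs hQE hTQ => ?_⟩
  obtain ⟨h7, h8⟩ := hT₀ K hK h Q hf hQE ((le_max_left _ _).trans_lt hTQ)
  refine ⟨h7, fun L i1 i2 i3 S s E a c y hS hE hdiv hc hy => ?_⟩
  have hAδ : ∑ j, A j < δ * height Q := by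
    have h9 := (le_max_right T₀ ((∑ j, A j) / δ)).trans_lt hTQ
    rw [div_lt_iff₀ hδ0] at h9
    linarith
  have h9 := Ext4.ext4 (K := K) (L := L) (F := fun j => upK h (F j)) (κ := κ) (x := Q.rep)
    (S := S) (e := ram E a) (fun j => (h1 j).map _) Q.rep_nonzero h7 hS (ram_pos a hE)
    (fun w hw j _ hz => Ext4.abel_int (fun j => (h1 j).map _) Q.rep_nonzero h7 E a hE hdiv c y hy
      w (fun i => hc w hw i) j hz)
  have h10 : -(∑ j, A j) ≤
      ∑ j, 1 / (ram E a j : ℝ) * prox L S (upK h (F j)) (κ j) Q.rep := by
    rw [← Finset.sum_neg_distrib]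
    refine Finset.sum_le_sum fun j _ => ?_
    have h11 := hA j K hK h L i1 i2 i3 S Q.rep Q.rep_nonzero (h7 j)
    have h12 : (1 : ℝ) ≤ ram E a j := by exact_mod_cast ram_pos a hE j
    have h13 : 1 / (ram E a j : ℝ) ≤ 1 := by
      rw [div_le_one (by linarith)]
      exact h12
    have h14 : 0 ≤ 1 / (ram E a j : ℝ) := by positivity
    have h15 := mul_le_mul_of_nonneg_left h11 h14
    have h16 := mul_le_mul_of_nonneg_right h13 (hA0 j)
    linarith
  rw [hgt_eq] at h8 h9
  have h17 : (Λ : ℝ) * ∑ l, idealHeight (upK h (F' l)) (upK h (G' l)) (κ' l) (ε' l) Q.rep /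
      finrank ℚ K = Λ * ((∑ l, idealHeight (upK h (F' l)) (upK h (G' l)) (κ' l) (ε' l) Q.rep) /
        finrank ℚ K) := by
    rw [Finset.sum_div]
  rw [h17]
  have h18 : (θ - ∑ j, (κ j : ℝ) / ram E a j) * height Q =
      (θ + wsum F κ) / 2 * height Q - δ * height Q -
        (∑ j, (κ j : ℝ) / ram E a j) * height Q := by
    rw [hδ]
    ring
  rw [h18]
  linarith

end Pool.Agent.Results.MP_9b9442_nt.AbelianCovers
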