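import Mathlib
import Pool.Agent.N753.SF.Main

/-!
# The discriminants of algebraic points: branch points of degree at most five

Let `K` be a number field and `m ≥ 1`. We consider ALL number fields `k` containing `K`, all finite
sets of elements `a_1, …, a_q` of `k` of degree at most FIVE over `K`, all smooth projective curves
`X_1, …, X_m` over `k` and all finite maps `t_i : X_i → ℙ¹` of degree `N_i` over `k`. Let `A_i` be
the ring of the functions on `X_i` with poles only over `∞`: a Dedekind domain, finite over `k[t]`.
The number of the geometric points of `X_i` over `a_j` is `n_{i j} = dim (A_i / rad (t - a_j))`. If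
the `t_i` are unramified outside the fibres over the `a_j`, then for a point `P` of the product
`X = X_1 × … × X_m` the height `h_{K_X}(P)` is `∑_i (∑_j (1 - n_{i j} / N_i) - 2) h(t_i(P))` up to
`ε ∑_i h(t_i(P)) + O(1)`.

We prove that for every `κ > 0` there is ONE set `E ⊆ K ^ m`, containing only `O(B ^ (2 m - ν))` of
the `≍ B ^ (2 m)` tuples of height at most `B`, such that for all `k`, `a_j`, `X_i`, `t_i` and all
coordinates on the line over `K`, with a constant depending on them, all points `P` of `X` which lie
over some tuple `x` not in `E` satisfy `∑_i (∑_j (1 - n_{i j} / N_i) - κ) h(t_i(P)) ≤ d_K(P) + c`.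
This is the inequality `h_{K_X}(P) ≤ d_K(P) + ε h_A(P) + O(1)` of the conjecture of Vojta (with the
additional term `2 ∑_i h(t_i(P))` on the left) for all these points, which are of unbounded
degree over `ℚ`, as `k` is arbitrary, and of degree at most `∏_i N_i` over `k`.
-/

set_option autoImplicit false

namespace Pool.Agent.Results.MP_9b9442_nt.BranchPointsDegreeFive

open Polynomial NumberField Module

/-- The function `t` on the curve with the ring of functions `A`. -/
noncomputable def coord (k A : Type) [Field k] [CommRing A] [Algebra k[X] A] : A :=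
  algebraMap k[X] A X

/-- The ideal of the reduced fibre over `a`. -/
noncomputable def fibre (k A : Type) [Field k] [CommRing A] [Algebra k A] [Algebra k[X] A]
    (a : k) : Ideal A :=
  (Ideal.span {coord k A - algebraMap k A a}).radical

/-- `∑_j (1 - n_j / N)` for a curve, where `n_j = dim (A / rad (t - a_j))` is the number of the
geometric points over `a_j` and `N` is the rank of `A` over `k[t]`. If `t` is unramified outside the
fibres over the `a_j`, this is `2 + (deg K) / N`, where `K` is a canonical divisor of the curve. -/
noncomputable def degree (k A : Type) [Field k] [CommRing A] [Algebra k A]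
    [Algebra k[X] A] {q : ℕ} (a : Fin q → k) : ℝ :=
  ∑ j, (1 - (finrank k (A ⧸ fibre k A (a j)) : ℝ) / finrank k[X] A)

/-- The logarithmic discriminant `d_K` of a point with values in the field `L`. -/
noncomputable def logDisc (K L : Type) [Field K] [NumberField K] [Field L] [NumberField L]
    [Algebra K L] : ℝ :=
  Real.log |(discr L : ℝ)| / finrank K L - Real.log |(discr K : ℝ)|

/-- The tuples all of whose coordinates have height at most `B`. -/
def box (K : Type) [Field K] [NumberField K] (m : ℕ) (B : ℝ) : Set (Fin m → K) :=
  {x | ∀ i, Height.mulHeight₁ (x i) ≤ B}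

/-- The value of the fractional linear transformation `g` at `x`. -/
noncomputable def moebius {K : Type} [Field K] (g : Matrix (Fin 2) (Fin 2) K) (x : K) : K :=
  (g 0 0 * x + g 0 1) / (g 1 0 * x + g 1 1)

/-- **One exceptional set for all number fields, all branch points of degree at most five, all
coordinates, all curves, all covers and all products.** Heights are relative to `K`. -/
theorem result (K : Type) [Field K] [NumberField K] (m : ℕ) (hm : 0 < m) (κ : ℝ) (hκ : 0 < κ) :
    ∃ E : Set (Fin m → K),
      -- the exceptional set contains `O(B ^ (2 m - ν))` of the tuples of height at most `B`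
      (∃ ν c : ℝ, 0 < ν ∧ ∀ B : ℝ, 1 ≤ B → (box K m B).Finite ∧
        ((E ∩ box K m B).ncard : ℝ) ≤ c * B ^ (2 * (m : ℝ) - ν)) ∧
      -- for all number fields `k ⊇ K` and all points of degree at most five over `K`
      ∀ (k : Type) [Field k] [NumberField k] [Algebra K k] (q : ℕ) (a : Fin q → k), 0 < q →
        Function.Injective a → (∀ j, (minpoly K (a j)).natDegree ≤ 5) →
        -- for all coordinates on the line
        ∀ g : Matrix (Fin 2) (Fin 2) K, g.det ≠ 0 →
        -- for all smooth curves over `k`, finite over the `t`-line
        ∀ (A : Fin m → Type) [∀ i, CommRing (A i)] [∀ i, IsDedekindDomain (A i)]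
          [∀ i, Algebra k (A i)] [∀ i, Algebra k[X] (A i)] [∀ i, IsScalarTower k k[X] (A i)]
          [∀ i, Module.Finite k[X] (A i)] [∀ i, FaithfulSMul k[X] (A i)],
        ∃ c : ℝ, ∀ x : Fin m → K, x ∉ E → (∀ i, g 1 0 * x i + g 1 1 ≠ 0) →
          (∀ i j, algebraMap K k (moebius g (x i)) ≠ a j) →
          -- for all points `P = (φ_i)` of the product over `g x`, with values in any field `L`
          ∀ (L : Type) [Field L] [NumberField L] [Algebra K L] [Algebra k L]
            [IsScalarTower K k L] (φ : ∀ i, A i →ₐ[k] L),
            (∀ i, φ i (coord k (A i)) = algebraMap K L (moebius g (x i))) →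
            ∑ i, (degree k (A i) a - κ) * Height.logHeight₁ (moebius g (x i)) ≤
              logDisc K L + c := by
  obtain ⟨E, ⟨ν, c, hν, hE⟩, hmain⟩ := Pool.Agent.N753.SF.main K hm hκ
  have hbox : ∀ B : ℝ, 1 ≤ B → box K m B ⊆ {x | Pool.Agent.N753.LS.htm x ≤ Real.log B} := by
    intro B hB x hx
    refine Pool.Agent.N753.LS.htm_le hm fun i => ?_
    exact Real.log_le_log (Height.mulHeight₁_pos _) (hx i)
  refine ⟨E, ⟨ν, c, hν, fun B hB => ⟨(Pool.Agent.N753.LS.box_fin _).subset (hbox B hB), ?_⟩⟩, ?_⟩
  · have h1 := hE (Real.log B) (Real.log_nonneg hB)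
    rw [mul_comm (2 * (m : ℝ) - ν), ← Real.rpow_def_of_pos (by linarith)] at h1
    refine le_trans ?_ h1
    exact_mod_cast Set.ncard_le_ncard (Set.inter_subset_inter_right E (hbox B hB))
      ((Pool.Agent.N753.LS.box_fin _).inter_of_right E)
  · intro k _ _ _ q a hq ha hdeg g hg A _ _ _ _ _ _ _
    obtain ⟨c, hc⟩ := hmain k q a hq ha hdeg ![g 0 0, g 0 1, g 1 0, g 1 1] (by
      rw [Matrix.det_fin_two] at hg
      exact hg) A (fun i j => fibre k (A i) (a j)) (fun i j => rfl)
    exact ⟨c, fun x hx hgx hxa L _ _ _ _ _ φ hφ => hc x hx hgx hxa L φ hφ⟩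

end Pool.Agent.Results.MP_9b9442_nt.BranchPointsDegreeFive
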