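import Mathlib
import Pool.Agent.N753.LS.Fin2

/-!
# The discriminants of algebraic points: arbitrary covers of the line, curves of genus two

Let `K` be a number field, `X_1, …, X_m` smooth projective curves over `K` and `t_i : X_i → ℙ¹`
arbitrary finite maps of degree `N_i` over `K`. Nothing is assumed on the fields of definition of the
branch points or on the ramification over them. Let `A_i` be the ring of the functions on `X_i` with
poles only over `∞`: a Dedekind domain and a free `K[t]`-module of rank `N_i`, and let `D_i(t)` be the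
discriminant of a basis. We write `D_i` as a constant times a square times a product of `r_i`
pairwise coprime nonconstant polynomials without multiple roots, at most one of which has odd
degree: for `r_i = 1` this is possible if and only if `D_i` is not a constant times a square.

We prove that for every `ε > 0` there is one set `E ⊆ K ^ m`, containing only `O(B ^ (2 m - ν))` of
the `≍ B ^ (2 m)` tuples of height at most `B`, such that for all `X_i` and `t_i`, with a constant
depending on them, all points `P` of `X_1 × … × X_m` which lie over some `x` not in `E` and have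
coordinates of degree `N_i` satisfy `∑_i r_i (2 - ε) / N_i h(x_i) ≤ d_K(P) + c`.
As `h_{K_X}(P)` is `∑_i (2 g_i - 2) / N_i h(x_i)` up to `ε ∑_i h(x_i) + O(1)`, where `g_i` is the
genus of `X_i`, this is the inequality `h_{K_X}(P) ≤ d_K(P) + ε h_A(P) + O(1)` of the conjecture of
Vojta as soon as `g_i ≤ r_i + 1`; for example for all curves of genus two and all `t_i`
(with `D_i` not a constant times a square) and for all their products.
-/

set_option autoImplicit false

namespace Pool.Agent.Results.MP_9b9442_nt.GenusTwoAllCovers

open Polynomial NumberField Module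

/-- Up to a constant and the square of a polynomial, `D` is a product of `r` pairwise coprime
nonconstant polynomials without multiple factors, at most one of which has odd degree. -/
def HasParts {K : Type} [Field K] (D : K[X]) (r : ℕ) : Prop :=
  ∃ (c : K) (h : K[X]) (g : Fin r → K[X]), D = C c * h ^ 2 * ∏ j, g j ∧
    (∀ j, Squarefree (g j) ∧ 1 ≤ (g j).natDegree) ∧
    ∀ j k, j ≠ k → IsCoprime (g j) (g k) ∧ (Even (g j).natDegree ∨ Even (g k).natDegree)

/-- The logarithmic discriminant `d_K` of a point with the residue field `L`. -/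
noncomputable def logDisc (K L : Type) [Field K] [NumberField K] [Field L] [NumberField L]
    [Algebra K L] : ℝ :=
  Real.log |(discr L : ℝ)| / finrank K L - Real.log |(discr K : ℝ)|

/-- The tuples all of whose coordinates have height at most `B`. -/
def box (K : Type) [Field K] [NumberField K] (m : ℕ) (B : ℝ) : Set (Fin m → K) :=
  {x | ∀ i, Height.mulHeight₁ (x i) ≤ B}

theorem hasParts_one {K : Type} [Field K] (n : ℕ) (D : K[X]) (hn : D.natDegree ≤ n)
    (hD : ∀ (c : K) (h : K[X]), D ≠ C c * h ^ 2) : HasParts D 1 := by
  induction n using Nat.strong_induction_on generalizing D with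
  | _ n ih =>
    have hD0 : D ≠ 0 := fun h => hD 0 1 (by rw [h]; simp)
    by_cases hsq : Squarefree D
    · refine ⟨1, 1, fun _ => D, by simp, fun _ => ⟨hsq, ?_⟩, fun j k hjk => ?_⟩
      · rw [Nat.one_le_iff_ne_zero]
        intro h0
        exact hD (D.coeff 0) 1 (by rw [one_pow, mul_one]; exact eq_C_of_natDegree_eq_zero h0)
      · exact absurd (Subsingleton.elim j k) hjk
    · rw [Squarefree] at hsq
      push Not at hsq
      obtain ⟨y, ⟨z, hz⟩, hy⟩ := hsq
      have hy0 : y ≠ 0 := by rintro rfl; exact hD0 (by rw [hz]; simp)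
      have hz0 : z ≠ 0 := by rintro rfl; exact hD0 (by rw [hz]; simp)
      have hdy : 1 ≤ y.natDegree := by
        rw [Nat.one_le_iff_ne_zero]
        intro h0
        exact hy ((isUnit_iff_degree_eq_zero).2 (by rw [degree_eq_natDegree hy0, h0]; rfl))
      have hdeg : D.natDegree = y.natDegree + y.natDegree + z.natDegree := by
        rw [hz, natDegree_mul (mul_ne_zero hy0 hy0) hz0, natDegree_mul hy0 hy0]
      obtain ⟨c, h, g, h1, h2, h3⟩ := ih z.natDegree (by omega) z le_rfl (fun c h hzc =>
        hD c (y * h) (by rw [hz, hzc]; ring))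
      exact ⟨c, y * h, g, by rw [hz]; nth_rewrite 1 [h1]; ring, h2, h3⟩

/-- **One exceptional set for all curves, all covers and all products, every branch locus.** -/
theorem result (K : Type) [Field K] [NumberField K] :
    -- every polynomial which is not a constant times a square has one part
    (∀ D : K[X], (∀ (c : K) (h : K[X]), D ≠ C c * h ^ 2) → HasParts D 1) ∧
    ∀ (m : ℕ), 0 < m → ∀ ε : ℝ, 0 < ε →
    ∃ E : Set (Fin m → K),
      -- the exceptional set contains `O(B ^ (2 m - ν))` of the tuples of height at most `B`
      (∃ ν c : ℝ, 0 < ν ∧ ∀ B : ℝ, 1 ≤ B → (box K m B).Finite ∧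
        ((E ∩ box K m B).ncard : ℝ) ≤ c * B ^ (2 * (m : ℝ) - ν)) ∧
      -- for all finite free `K[X]`-algebras `A_i` of rank `N_i` with discriminant in `r_i` parts
      ∀ (A : Fin m → Type) [∀ i, CommRing (A i)] [∀ i, Algebra K (A i)] [∀ i, Algebra K[X] (A i)]
        [∀ i, IsScalarTower K K[X] (A i)] (N : Fin m → ℕ) (b : ∀ i, Basis (Fin (N i)) K[X] (A i))
        (r : Fin m → ℕ), (∀ i, 1 ≤ r i) → (∀ i, HasParts (Algebra.discr K[X] (b i)) (r i)) →
        ∃ c : ℝ, ∀ x : Fin m → K, x ∉ E → ∀ (L : Type) [Field L] [NumberField L] [Algebra K L]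
          (φ : ∀ i, A i →ₐ[K] L),
          -- `P = (φ_i)` is a point of the product over `x` whose coordinates have degree `N_i`
          (∀ i, φ i (algebraMap K[X] (A i) X) = algebraMap K L (x i)) →
          (∀ i, finrank K (IntermediateField.adjoin K (Set.range (φ i))) = N i) →
          ∑ i, r i * (2 - ε) / N i * Height.logHeight₁ (x i) ≤ logDisc K L + c := by
  refine ⟨fun D hD => hasParts_one _ D le_rfl hD, fun m hm ε hε => ?_⟩
  obtain ⟨E, ⟨ν, c, hν, hE⟩, hmain⟩ := Pool.Agent.N753.LS.main K hm hε
  have hbox : ∀ B : ℝ, 1 ≤ B → box K m B ⊆ {x | Pool.Agent.N753.LS.htm x ≤ Real.log B} := by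
    intro B hB x hx
    refine Pool.Agent.N753.LS.htm_le hm fun i => ?_
    exact Real.log_le_log (Height.mulHeight₁_pos _) (hx i)
  refine ⟨E, ⟨ν, c, hν, fun B hB => ⟨(Pool.Agent.N753.LS.box_fin _).subset (hbox B hB), ?_⟩⟩, hmain⟩
  have h1 := hE (Real.log B) (Real.log_nonneg hB)
  rw [mul_comm (2 * (m : ℝ) - ν), ← Real.rpow_def_of_pos (by linarith)] at h1
  refine le_trans ?_ h1
  exact_mod_cast Set.ncard_le_ncard (Set.inter_subset_inter_right E (hbox B hB))
    ((Pool.Agent.N753.LS.box_fin _).inter_of_right E)

end Pool.Agent.Results.MP_9b9442_nt.GenusTwoAllCovers
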