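import Pool.Agent.N89.BD.Fin

/-!
# Points of degree at most `B` on 100 % of the complete intersections over a semiabelian variety

`K` is a number field, `G = E_1 × ⋯ × E_r × G_m^s`, `r + s ≥ 1`, where `E_i` is an elliptic curve
`y² = x³ + a_i x` or `y² = x³ + b_i`, and `𝒯 ⊂ G × ℙ^(m-1)` is an arbitrary closed subscheme, given by
polynomials `G_e(V, u, T)` over `𝓞 K` (`V_i` homogeneous coordinates in the plane of `E_i`, `u ∈ G_m^s`,
`T` homogeneous coordinates of `ℙ^(m-1)`). We only assume that all the complex fibres of `𝒯` over `G`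
have dimension at most `κ`, `κ ≥ 0`; so `dim 𝒯 ≤ r + s + κ`.

A linear system on `𝒯` is a finite family `Λ = (Λ_x)` of polynomials over `𝓞 K` of the same degrees. It
separates `k₀` points if the vectors `(Λ_x(P))_x` at any `l ≤ k₀` different complex points `P` of `𝒯` are
linearly independent. A point of `𝒯` over a number field `L ⊃ K` is `S`-integral if its torus
coordinates `u_l` are `S`-units of `L` (for `s = 0`: no condition).

**Theorem.** Let `B ≥ 1`. There is a number `k₀`, which depends only on `𝒯` and `B`, such that for all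
`h ≥ 1` with `(r + s + κ) B ≤ (r + s) + h B`, for all linear systems `Λ_1, …, Λ_h` on `𝒯` which separate
`k₀` points, and all `Φ_1, …, Φ_h` of the same degrees, almost all the complete intersections
`X_c = 𝒯 ∩ {Φ_j + ∑_x c_(j,x) Λ_(j,x) = 0, j = 1, …, h}`, `c ∈ (𝓞 K)^n`, have no integral points of degree
at most `B` over `K` (the condition says that `B dim X_c ≤ dim G` if the `X_c` have the expected dimension
`r + s + κ - h`):

1. for every `S ≥ 1` at most `(2H+1)^(nN) exp(-c₀ log H / log log H)` of the `(2H+1)^(nN)` vectors `c` of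
   size at most `H` are such that `X_c` has an `S`-integral point over some extension `L` of `K` of
   degree at most `B`, `N = [K : ℚ]`;
2. there is one exceptional set `𝓔`, with at most `(2H+1)^(nN) exp(-log H / (log log H)²)` elements of
   size at most `H`, such that for all `S` all but finitely many of the `X_c`, `c ∉ 𝓔`, have no
   `S`-integral point over any extension `L` of `K` of degree at most `B`;
3. a linear system on `𝒯` which contains all the monomials `V^μ u^x T^α` with `μ` of a given multidegree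
   `d`, `α` of degree `e`, `x_0 ≤ x ≤ x_0 + k₀ - 1`, separates `k₀` points if `e` and all the `d_i` are at
   least `k₀ - 1`.

For example, for `r = 2`, `s = κ = 0`, `h = 1`, `B = 2`: 100 % of the curves of a large bidegree on
`E_1 × E_2` have no points over any quadratic extension of `K`.
-/

set_option autoImplicit false

namespace Pool.Agent.Results.MP_9b9442_nt.NoPointsOfBoundedDegree

open MvPolynomial NumberField

/-- polynomials with coefficients in `O` in the homogeneous coordinates `V_(i,j)`, `i < r`, `j < 3`,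
of points in `r` planes, the coordinates `u_l` of a torus of dimension `s` and the homogeneous
coordinates `T_0, …, T_(m-1)` -/
abbrev Pol (O : Type) [CommRing O] (r s m : ℕ) : Type :=
  MvPolynomial ((Fin r × Fin 3) ⊕ (Fin s ⊕ Fin m)) O

/-- homogeneous of degree `d i` in `V_i` and of degree `e` in `T` -/
def Homog {O : Type} [CommRing O] {r s m : ℕ} (F : Pol O r s m) (d : Fin r → ℕ) (e : ℕ) : Prop :=
  (∀ μ ∈ F.support, ∀ i, ∑ j, μ (Sum.inl (i, j)) = d i) ∧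
    ∀ μ ∈ F.support, ∑ x, μ (Sum.inr (Sum.inr x)) = e

/-- the value `F(V, u, T)`; the coefficients are mapped by `φ` -/
noncomputable def val {O k : Type} [CommRing O] [CommRing k] (φ : O →+* k) {r s m : ℕ}
    (F : Pol O r s m) (V : Fin r → Fin 3 → k) (u : Fin s → k) (T : Fin m → k) : k :=
  eval₂ φ (Sum.elim (fun ij => V ij.1 ij.2) (Sum.elim u T)) F

/-- `(V, u)` represents a point of `E_1 × ⋯ × E_r × G_m^s`, `E_i : y² = x³ + a_i x + b_i` -/
def OnG {k : Type} [Field k] {r s : ℕ} (a b : Fin r → ℤ) (V : Fin r → Fin 3 → k) (u : Fin s → k) :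
    Prop :=
  (∀ i, V i ≠ 0 ∧ V i 1 ^ 2 * V i 2 = V i 0 ^ 3 + a i * V i 0 * V i 2 ^ 2 + b i * V i 2 ^ 3) ∧
    ∀ l, u l ≠ 0

/-- `T` represents a point of the fibre of `𝒯` over `(V, u)` -/
def OnT {O k : Type} [CommRing O] [Field k] (φ : O →+* k) {r s m q : ℕ} (G : Fin q → Pol O r s m)
    (V : Fin r → Fin 3 → k) (u : Fin s → k) (T : Fin m → k) : Prop :=
  T ≠ 0 ∧ ∀ e, val φ (G e) V u T = 0

/-- the embedding of `𝓞 K` in a field `L ⊃ K`, or in `ℂ` -/
noncomputable def emb {K L : Type} [Field K] [Field L] (σ : K →+* L) : 𝓞 K →+* L :=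
  σ.comp (algebraMap (𝓞 K) K)

/-- all complex fibres of `𝒯` over `G` have dimension at most `κ`: for every complex point `(V, u)`
of `G` there are `κ + 1` linear forms in `T` without a common zero on the fibre over `(V, u)` -/
def DimLE {K : Type} [Field K] (σ : K →+* ℂ) {r s m q : ℕ} (a b : Fin r → ℤ)
    (G : Fin q → Pol (𝓞 K) r s m) (κ : ℕ) : Prop :=
  ∀ (V : Fin r → Fin 3 → ℂ) (u : Fin s → ℂ), OnG a b V u →
    ∃ ℓ : Fin (κ + 1) → Fin m → ℂ, ∀ T, OnT (emb σ) G V u T → ∃ i, ∑ j, ℓ i j * T j ≠ 0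

/-- the linear system `Λ` separates `k₀` complex points of `𝒯`: the vectors of its values at any
`l ≤ k₀` different points are linearly independent -/
def Sep {K : Type} [Field K] (σ : K →+* ℂ) {r s m q : ℕ} (a b : Fin r → ℤ)
    (G : Fin q → Pol (𝓞 K) r s m) {ι : Type} (Λ : ι → Pol (𝓞 K) r s m) (k₀ : ℕ) : Prop :=
  ∀ l ≤ k₀, ∀ (V : Fin l → Fin r → Fin 3 → ℂ) (u : Fin l → Fin s → ℂ) (T : Fin l → Fin m → ℂ),
    (∀ i, OnG a b (V i) (u i) ∧ OnT (emb σ) G (V i) (u i) (T i)) →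
    (∀ i j, i ≠ j → ¬ ((∀ t, ∃ c : ℂ, V i t = c • V j t) ∧ u i = u j ∧ ∃ c : ℂ, T i = c • T j)) →
      LinearIndependent ℂ (fun i => fun x => val (emb σ) (Λ x) (V i) (u i) (T i))

/-- `x` is an `S`-unit (for `x ≠ 0`): `S^n x` and `S^n x⁻¹` are algebraic integers for some `n` -/
def SUnit {L : Type} [Field L] (S : ℕ) (x : L) : Prop :=
  ∃ n : ℕ, IsIntegral ℤ ((S : L) ^ n * x) ∧ IsIntegral ℤ ((S : L) ^ n * x⁻¹)

/-- the set of the `c`, `c_(j,x) = ∑_i c_(j,x,i) ω_i ∈ 𝓞 K`, such that the complete intersection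
`X_c : Φ_j + ∑_x c_(j,x) Λ_(j,x) = 0` in `𝒯` has an `S`-integral point over a field `L ⊃ K` of degree
at most `B` over `K` -/
def HasPoint {K : Type} [Field K] [NumberField K] {N h r s m q : ℕ}
    (ω : Module.Basis (Fin N) ℤ (𝓞 K)) (a b : Fin r → ℤ) (B S : ℕ)
    (G : Fin q → Pol (𝓞 K) r s m) (Φ : Fin h → Pol (𝓞 K) r s m) {ι : Fin h → Type}
    [∀ j, Fintype (ι j)] (Λ : (j : Fin h) → ι j → Pol (𝓞 K) r s m) :
    Set ((Σ j, ι j) × Fin N → ℤ) :=
  {c | ∃ (L : Type) (_ : Field L) (_ : NumberField L) (_ : Algebra K L), Module.finrank K L ≤ B ∧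
    ∃ (V : Fin r → Fin 3 → L) (u : Fin s → L) (T : Fin m → L),
    OnG a b V u ∧ (∀ l, SUnit S (u l)) ∧ OnT (emb (algebraMap K L)) G V u T ∧
    ∀ j, val (emb (algebraMap K L)) (Φ j) V u T +
      ∑ x, emb (algebraMap K L) (∑ i, c (⟨j, x⟩, i) • ω i) *
        val (emb (algebraMap K L)) (Λ j x) V u T = 0}

/-- the monomial `V^μ u^x T^α` -/
noncomputable def mon {O : Type} [CommRing O] {r s m : ℕ} (μ : Fin r → Fin 3 → ℕ) (x : Fin s → ℕ)
    (α : Fin m → ℕ) : Pol O r s m :=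
  (∏ i, ∏ j, X (Sum.inl (i, j)) ^ μ i j) *
    ((∏ l, X (Sum.inr (Sum.inl l)) ^ x l) * ∏ i, X (Sum.inr (Sum.inr i)) ^ α i)

theorem result (K : Type) [Field K] [NumberField K] (N : ℕ) (ω : Module.Basis (Fin N) ℤ (𝓞 K))
    (r s m q κ : ℕ) (hrs : 1 ≤ r + s) (a b : Fin r → ℤ)
    (hab : ∀ i, a i * b i = 0 ∧ (a i ≠ 0 ∨ b i ≠ 0))
    (G : Fin q → Pol (𝓞 K) r s m) (dG : Fin q → Fin r → ℕ) (eG : Fin q → ℕ)
    (hG : ∀ l, Homog (G l) (dG l) (eG l)) (σ : K →+* ℂ) (hdim : DimLE σ a b G κ)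
    (B : ℕ) (hB : 1 ≤ B) :
    ∃ k₀ : ℕ,
      (∀ h : ℕ, 1 ≤ h → (r + s + κ) * B ≤ (r + s) + h * B →
        ∀ (Φ : Fin h → Pol (𝓞 K) r s m) (ι : Fin h → Type) [∀ j, Fintype (ι j)]
        (Λ : (j : Fin h) → ι j → Pol (𝓞 K) r s m) (d : Fin h → Fin r → ℕ) (e : Fin h → ℕ),
        (∀ j, Homog (Φ j) (d j) (e j)) → (∀ j x, Homog (Λ j x) (d j) (e j)) →
        (∀ j, Sep σ a b G (Λ j) k₀) →
        -- 1. the number of the `X_c` with an `S`-integral point of degree at most `B`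
        (∀ S : ℕ, 1 ≤ S → ∃ c₀ : ℝ, 0 < c₀ ∧ ∃ H₀ : ℕ, ∀ H : ℕ, H₀ ≤ H →
            (({c : (Σ j, ι j) × Fin N → ℤ | (∀ i, |c i| ≤ (H : ℤ)) ∧
              c ∈ HasPoint ω a b B S G Φ Λ}.ncard : ℕ) : ℝ) ≤
              (2 * (H : ℝ) + 1) ^ (Fintype.card (Σ j, ι j) * N) *
                Real.exp (-c₀ * (Real.log H / Real.log (Real.log H)))) ∧
        -- 2. one exceptional set for all `S`
        ∃ E : Set ((Σ j, ι j) × Fin N → ℤ),
          (∃ H₀ : ℕ, ∀ H : ℕ, H₀ ≤ H →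
            (({c : (Σ j, ι j) × Fin N → ℤ | (∀ i, |c i| ≤ (H : ℤ)) ∧ c ∈ E}.ncard : ℕ) : ℝ) ≤
              (2 * (H : ℝ) + 1) ^ (Fintype.card (Σ j, ι j) * N) *
                Real.exp (-(Real.log H / Real.log (Real.log H) ^ 2))) ∧
          ∀ S : ℕ, 1 ≤ S → (HasPoint ω a b B S G Φ Λ \ E).Finite) ∧
      -- 3. systems of monomials which separate `k₀` points
      ∀ (ι : Type) (Λ : ι → Pol (𝓞 K) r s m) (d : Fin r → ℕ) (e : ℕ) (x₀ : Fin s → ℕ),
        (∀ i, k₀ ≤ d i + 1) → k₀ ≤ e + 1 →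
        (∀ (μ : Fin r → Fin 3 → ℕ) (x : Fin s → ℕ) (α : Fin m → ℕ), (∀ i, ∑ j, μ i j = d i) →
          (∀ l, x₀ l ≤ x l ∧ x l + 1 ≤ x₀ l + k₀) → ∑ i, α i = e → ∃ y, Λ y = mon μ x α) →
        Sep σ a b G Λ k₀ := by
  obtain ⟨k₀, h1, h2⟩ := Pool.Agent.N89.BD.finBD K N ω r s m q κ a b hab G dG eG
    (fun l => (hG l).1) (fun l => (hG l).2) σ hdim B hB hrs
  have hsep : ∀ {ι : Type} (Λ : ι → Pol (𝓞 K) r s m),
      Sep σ a b G Λ k₀ ↔ Pool.Agent.N89.BD.SepAll (Pool.Agent.W659.SA.toC σ) a b G Λ k₀ := by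
    intro ι Λ
    constructor
    · intro h l hl V u T hB hF hne
      exact h l hl V u T (fun i => ⟨hB i, hF i⟩) (fun i j hij hc =>
        hne i j hij ⟨⟨hc.1, hc.2.1⟩, hc.2.2⟩)
    · intro h l hl V u T hT hne
      exact h l hl V u T (fun i => (hT i).1) (fun i => (hT i).2) (fun i j hij hc =>
        hne i j hij ⟨hc.1.1, hc.1.2, hc.2⟩)
  refine ⟨k₀, ?_, fun ι Λ d e x₀ hd he h => (hsep Λ).2 (h2 ι Λ d e x₀ hd he h)⟩
  intro h hh hyp Φ ι _ Λ d e hΦ hΛ hs
  obtain ⟨h3, E, h4, h5⟩ := h1 h hh hyp Φ ι Λ d e (fun j => (hΦ j).1) (fun j => (hΦ j).2)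
    (fun j x => (hΛ j x).1) (fun j x => (hΛ j x).2) (fun j => (hsep (Λ j)).1 (hs j))
  have key : ∀ S : ℕ,
      HasPoint ω a b B S G Φ Λ = Pool.Agent.N89.BD.BadB ω a b B S G Φ Λ := by
    intro S
    ext c
    constructor
    · rintro ⟨L, i1, i2, i3, hL, V, u, T, hV, hu, hT, hc⟩
      refine ⟨L, i1, i2, i3, hL, V, fun l => Units.mk0 (u l) (hV.2 l), T, hV.1, fun l => ?_, hT, hc⟩
      obtain ⟨n, hn1, hn2⟩ := hu l
      exact ⟨n, hn1, by simpa using hn2⟩
    · rintro ⟨L, i1, i2, i3, hL, V, u, T, hV, hu, hT, hc⟩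
      refine ⟨L, i1, i2, i3, hL, V, fun l => ((u l : Lˣ) : L), T, ⟨hV, fun l => (u l).ne_zero⟩,
        fun l => ?_, hT, hc⟩
      obtain ⟨n, hn1, hn2⟩ := hu l
      exact ⟨n, hn1, by simpa using hn2⟩
  refine ⟨?_, E, h4, ?_⟩
  · intro S hS
    obtain ⟨c₀, hc₀, H₀, h⟩ := h3 S hS
    refine ⟨c₀, hc₀, H₀, fun H hH => ?_⟩
    rw [key]
    exact h H hH
  · intro S hS
    rw [key]
    exact h5 S hS

end Pool.Agent.Results.MP_9b9442_nt.NoPointsOfBoundedDegree
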